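import Mathlib

/-!
The unit-cost arithmetic model over `ℂ`, for the product of a Fourier submatrix with a vector.

The machine has registers `0, 1, 2, …` holding complex numbers and a control state in an arbitrary
type `σ` (program counter and any discrete data; work on discrete data is free).
Every instruction costs one step. The tests of branch instructions may depend on a random seed
`ω : Ω`, drawn once from a probability measure `P` (a deterministic algorithm ignores it).
-/

namespace Pool.Agent.MP_d958de_lc

open MeasureTheory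

/-- One instruction. `s` is the next control state, `k` the register written. -/
inductive Instr (σ Ω : Type) : Type
  | const (c : ℂ) (k : ℕ) (s : σ) : Instr σ Ω
  | root (i k : ℕ) (s : σ) : Instr σ Ω
  | add (i j k : ℕ) (s : σ) : Instr σ Ω
  | sub (i j k : ℕ) (s : σ) : Instr σ Ω
  | mul (i j k : ℕ) (s : σ) : Instr σ Ω
  | div (i j k : ℕ) (s : σ) : Instr σ Ω
  | conj (i k : ℕ) (s : σ) : Instr σ Ω
  | branch (q : Ω → (ℕ → ℂ) → ℕ) (s : ℕ → σ) : Instr σ Ω
  | halt (out : ℕ → ℕ) : Instr σ Ω

/-- An algorithm: the instruction executed in each control state, and the initial control state,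
which may depend on the discrete input `(d, R, C)` in any way. -/
structure Alg (σ Ω : Type) : Type where
  prog : σ → Instr σ Ω
  start : ℕ → Finset ℕ → Finset ℕ → σ

/-- The root of unity `e^{-2πit/d}`. -/
noncomputable def rootOfUnity (d : ℕ) (t : ℤ) : ℂ :=
  Complex.exp (-(2 * Real.pi * Complex.I * t / d))

/-- One step of the machine with seed `ω` on a configuration (control state, registers). -/
noncomputable def Alg.step {σ Ω : Type} (A : Alg σ Ω) (d : ℕ) (ω : Ω) (x : σ × (ℕ → ℂ)) :
    σ × (ℕ → ℂ) :=
  match A.prog x.1 with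
  | .const c k s => (s, Function.update x.2 k c)
  | .root i k s => (s, Function.update x.2 k (rootOfUnity d ⌊(x.2 i).re⌋))
  | .add i j k s => (s, Function.update x.2 k (x.2 i + x.2 j))
  | .sub i j k s => (s, Function.update x.2 k (x.2 i - x.2 j))
  | .mul i j k s => (s, Function.update x.2 k (x.2 i * x.2 j))
  | .div i j k s => (s, Function.update x.2 k (x.2 i / x.2 j))
  | .conj i k s => (s, Function.update x.2 k (starRingEnd ℂ (x.2 i)))
  | .branch q s => (s (q ω x.2), x.2)
  | .halt _ => x

/-- The configuration after `n` steps on input `(d, R, C, v)` with seed `ω`; at the start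
register `k` holds `v k` for `k ∈ C` and `0` otherwise. -/
noncomputable def Alg.run {σ Ω : Type} (A : Alg σ Ω) (d : ℕ) (R C : Finset ℕ) (v : ℕ → ℂ) (ω : Ω)
    (n : ℕ) : σ × (ℕ → ℂ) :=
  (A.step d ω)^[n] (A.start d R C, fun k => if k ∈ C then v k else 0)

/-- The running time: the number of steps made before a `halt` instruction is reached
(`0` if the run never halts). -/
noncomputable def Alg.time {σ Ω : Type} (A : Alg σ Ω) (d : ℕ) (R C : Finset ℕ) (v : ℕ → ℂ)
    (ω : Ω) : ℕ :=
  sInf {n | ∃ out, A.prog (A.run d R C v ω n).1 = .halt out}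

/-- `A` computes `F_{RC} v`: on every input, for all seeds in a measurable set of probability at
least `2/3`, it halts, and then for each row `j ∈ R` register `out j` holds
`∑_{k ∈ C} d^{-1/2} e^{-2πijk/d} v_k`. -/
def Alg.Computes {σ Ω : Type} [MeasurableSpace Ω] (A : Alg σ Ω) (P : Measure Ω) : Prop :=
  ∀ (d : ℕ) (R C : Finset ℕ) (v : ℕ → ℂ), 1 ≤ d → R ⊆ Finset.range d → C ⊆ Finset.range d →
    R.card = C.card →
    ∃ G : Set Ω, MeasurableSet G ∧ 2 / 3 ≤ P G ∧ ∀ ω ∈ G,
      ∃ n out, A.prog (A.run d R C v ω n).1 = .halt out ∧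
        ∀ j ∈ R, (A.run d R C v ω n).2 (out j) =
          ∑ k ∈ C, ((Real.sqrt d : ℝ) : ℂ)⁻¹ * rootOfUnity d ((j : ℤ) * (k : ℤ)) * v k

/-- Expected running time over a uniformly random `|C|`-element subset `R` of `{0, …, d-1}` and
the seed. -/
noncomputable def Alg.expectedTime {σ Ω : Type} [MeasurableSpace Ω] (A : Alg σ Ω) (P : Measure Ω)
    (d : ℕ) (C : Finset ℕ) (v : ℕ → ℂ) : ENNReal :=
  (∑ R ∈ (Finset.range d).powersetCard C.card, ∫⁻ ω, (A.time d R C v ω : ENNReal) ∂P) /
    (d.choose C.card : ENNReal)

/-- Probability, over a uniformly random `|C|`-element subset `R` of `{0, …, d-1}` and the seed,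
that the running time exceeds `t`. -/
noncomputable def Alg.probExceeds {σ Ω : Type} [MeasurableSpace Ω] (A : Alg σ Ω) (P : Measure Ω)
    (d : ℕ) (C : Finset ℕ) (v : ℕ → ℂ) (t : ℝ) : ENNReal :=
  (∑ R ∈ (Finset.range d).powersetCard C.card, P {ω | t < (A.time d R C v ω : ℝ)}) /
    (d.choose C.card : ENNReal)

end Pool.Agent.MP_d958de_lc
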