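import Pool.Agent.MP_d958de_lc.Defs

/-! Sanity check of the model: the entry-by-entry algorithm runs in `3 |R| |C|` steps. -/

namespace Pool.Agent.MP_d958de_lc

open Finset

noncomputable def entry (d j k : ℕ) : ℂ :=
  ((Real.sqrt d : ℝ) : ℂ)⁻¹ * rootOfUnity d ((j : ℤ) * (k : ℤ))

noncomputable def naive : Alg (ℕ × List (ℕ × ℕ) × ℕ) Unit where
  prog := fun s => match s with
    | (d, [], _) => .halt fun j => d + 1 + j
    | (d, p :: l, 0) => .const (entry d p.1 p.2) d (d, p :: l, 1)
    | (d, p :: l, 1) => .mul d p.2 d (d, p :: l, 2)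
    | (d, p :: l, _ + 2) => .add (d + 1 + p.1) d (d + 1 + p.1) (d, l, 0)
  start := fun d R C => (d, (R ×ˢ C).toList, 0)

theorem naive_run (d : ℕ) : ∀ (l : List (ℕ × ℕ)) (μ : ℕ → ℂ), (∀ p ∈ l, p.2 < d) →
    ∃ μ' : ℕ → ℂ, (naive.step d ())^[3 * l.length] ((d, l, 0), μ) = ((d, [], 0), μ') ∧
      ∀ j, μ' (d + 1 + j) = μ (d + 1 + j) +
        (l.map fun p => if p.1 = j then entry d p.1 p.2 * μ p.2 else 0).sum
  | [], μ, _ => ⟨μ, rfl, by simp⟩
  | p :: l, μ, h => by
      have hp : p.2 < d := h p (List.mem_cons_self)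
      let μ1 := Function.update μ d (entry d p.1 p.2)
      let μ2 := Function.update μ1 d (μ1 d * μ1 p.2)
      let μ3 := Function.update μ2 (d + 1 + p.1) (μ2 (d + 1 + p.1) + μ2 d)
      have e3 : (naive.step d ())^[3] ((d, p :: l, 0), μ) = ((d, l, 0), μ3) := rfl
      obtain ⟨μ', h1, h2⟩ := naive_run d l μ3 fun q hq => h q (List.mem_cons_of_mem _ hq)
      refine ⟨μ', ?_, fun j => ?_⟩
      · rw [List.length_cons, mul_add, mul_one, Function.iterate_add_apply, e3, h1]
      · have e4 : ∀ k < d, μ3 k = μ k := by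
          intro k hk
          simp only [μ3, μ2, μ1]
          rw [Function.update_of_ne (by omega), Function.update_of_ne (by omega),
            Function.update_of_ne (by omega)]
        have e5 : μ3 (d + 1 + j) = μ (d + 1 + j) +
            if p.1 = j then entry d p.1 p.2 * μ p.2 else 0 := by
          by_cases hj : p.1 = j
          · subst hj
            simp only [μ3, μ2, μ1, Function.update_self, if_true]
            rw [Function.update_of_ne (by omega), Function.update_of_ne (by omega),
              Function.update_of_ne (by omega)]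
          · simp only [μ3, μ2, μ1, if_neg hj, add_zero]
            rw [Function.update_of_ne (by omega), Function.update_of_ne (by omega),
              Function.update_of_ne (by omega)]
        rw [h2, e5, List.map_cons, List.sum_cons, add_assoc]
        congr 2
        refine congrArg List.sum (List.map_congr_left fun q hq => ?_)
        rw [e4 _ (h q (List.mem_cons_of_mem _ hq))]

theorem naive_spec (d : ℕ) (R C : Finset ℕ) (v : ℕ → ℂ) (hC : C ⊆ range d) :
    naive.prog (naive.run d R C v () (3 * (R.card * C.card))).1 = .halt (fun j => d + 1 + j) ∧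
      ∀ j ∈ R, (naive.run d R C v () (3 * (R.card * C.card))).2 (d + 1 + j) =
        ∑ k ∈ C, ((Real.sqrt d : ℝ) : ℂ)⁻¹ * rootOfUnity d ((j : ℤ) * (k : ℤ)) * v k := by
  obtain ⟨μ', h1, h2⟩ := naive_run d (R ×ˢ C).toList (fun k => if k ∈ C then v k else 0)
    fun p hp => mem_range.1 (hC (mem_product.1 (mem_toList.1 hp)).2)
  rw [length_toList, card_product] at h1
  have h3 : naive.run d R C v () (3 * (R.card * C.card)) = ((d, [], 0), μ') := h1
  rw [h3]
  refine ⟨rfl, fun j hj => ?_⟩
  have h4 : d + 1 + j ∉ C := fun h => by have := mem_range.1 (hC h); omega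
  show μ' (d + 1 + j) = _
  rw [h2, if_neg h4, zero_add, sum_map_toList, sum_product, sum_eq_single j]
  · refine sum_congr rfl fun k hk => ?_
    simp [entry, hk]
  · intro b _ hb
    simp [hb]
  · intro h; exact absurd hj h

theorem naive_computes : naive.Computes (MeasureTheory.Measure.dirac ()) :=
  fun d R C v _ _ hC _ => ⟨Set.univ, MeasurableSet.univ, by
    rw [MeasureTheory.measure_univ]
    exact ENNReal.div_le_of_le_mul (by norm_num), fun _ _ => ⟨_, _, naive_spec d R C v hC⟩⟩

theorem naive_time (d : ℕ) (R C : Finset ℕ) (v : ℕ → ℂ) (hC : C ⊆ range d) :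
    naive.time d R C v () ≤ 3 * (R.card * C.card) :=
  Nat.sInf_le ⟨_, (naive_spec d R C v hC).1⟩

end Pool.Agent.MP_d958de_lc
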