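import Mathlib

/-! The Shoup-Smolensky dimension count. -/

namespace Pool.Agent.MP_d958de_lc

open Finset

/-- The `ℚ`-span of `1` and the constants in `S`. -/
noncomputable def WS (S : Finset ℂ) : Submodule ℚ ℂ := Submodule.span ℚ (insert 1 (S : Set ℂ))

theorem one_mem_WS (S : Finset ℂ) : (1 : ℂ) ∈ WS S := Submodule.subset_span (Set.mem_insert _ _)

theorem mem_WS {S : Finset ℂ} {c : ℂ} (h : c ∈ S) : c ∈ WS S :=
  Submodule.subset_span (Set.mem_insert_of_mem _ h)

theorem WS_mono {S S' : Finset ℂ} (h : S ⊆ S') : WS S ≤ WS S' :=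
  Submodule.span_mono (Set.insert_subset_insert h)

theorem one_mem_WS_pow (S : Finset ℂ) (n : ℕ) : (1 : ℂ) ∈ WS S ^ n := by
  simpa using Submodule.pow_mem_pow _ (one_mem_WS S) n

theorem WS_mul_mem {S : Finset ℂ} {a b : ℕ} {x y : ℂ} (hx : x ∈ WS S ^ a) (hy : y ∈ WS S ^ b) :
    x * y ∈ WS S ^ (a + b) := by
  rw [pow_add]; exact Submodule.mul_mem_mul hx hy

theorem WS_pow_mono {S S' : Finset ℂ} (h : S ⊆ S') {a b : ℕ} (hab : a ≤ b) :
    WS S ^ a ≤ WS S' ^ b := by
  intro x hx
  have h1 : x ∈ WS S' ^ a := pow_le_pow_left' (WS_mono h) a hx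
  have := WS_mul_mem h1 (one_mem_WS_pow S' (b - a))
  rwa [mul_one, Nat.add_sub_cancel' hab] at this

theorem WS_const_mul_mem {S : Finset ℂ} {a : ℕ} {c x : ℂ} (hc : c ∈ S) (hx : x ∈ WS S ^ a) :
    c * x ∈ WS S ^ (a + 1) := by
  have := WS_mul_mem hx (show c ∈ WS S ^ 1 by simpa using mem_WS hc)
  rwa [mul_comm] at this

theorem WS_pow_mem {S : Finset ℂ} {a : ℕ} {x : ℂ} (hx : x ∈ WS S ^ a) (n : ℕ) :
    x ^ n ∈ WS S ^ (a * n) := by
  rw [pow_mul]; exact Submodule.pow_mem_pow _ hx n

theorem WS_prod_mem {S : Finset ℂ} {ι : Type} (s : Finset ι) (f : ι → ℂ) (a : ℕ)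
    (h : ∀ i ∈ s, f i ∈ WS S ^ a) : ∏ i ∈ s, f i ∈ WS S ^ (a * s.card) := by
  classical
  induction s using Finset.induction_on with
  | empty => simpa using one_mem_WS_pow S 0
  | insert i s hi ih =>
    rw [prod_insert hi, card_insert_of_notMem hi, mul_add, mul_one, add_comm]
    exact WS_mul_mem (h i (mem_insert_self _ _)) (ih fun j hj => h j (mem_insert_of_mem hj))

/-- monomials of degree at most `D` in each constant -/
def Mono (S : Finset ℂ) (D : ℕ) : Set ℂ :=
  {x | ∃ e : ℂ → ℕ, (∀ c, e c ≤ D) ∧ x = ∏ c ∈ S, c ^ e c}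

theorem WS_pow_le (S : Finset ℂ) : ∀ D : ℕ, WS S ^ D ≤ Submodule.span ℚ (Mono S D)
  | 0 => by
      rw [pow_zero, Submodule.one_le]
      exact Submodule.subset_span ⟨fun _ => 0, fun _ => le_rfl, by simp⟩
  | D + 1 => by
      classical
      rw [pow_succ]
      refine (mul_le_mul_left (WS_pow_le S D) _).trans ?_
      rw [WS, Submodule.span_mul_span]
      refine Submodule.span_mono ?_
      rintro _ ⟨x, ⟨e, he, rfl⟩, y, hy, rfl⟩
      rcases hy with rfl | hy
      · exact ⟨e, fun c => (he c).trans (Nat.le_succ _), by simp⟩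
      · refine ⟨fun c => e c + if c = y then 1 else 0, fun c => ?_, ?_⟩
        · have := he c
          dsimp only
          split_ifs <;> omega
        · simp only [pow_add, prod_mul_distrib]
          congr 1
          rw [Finset.prod_eq_single y]
          · simp
          · intro b _ hb; simp [hb]
          · intro h; exact absurd hy h

theorem card_le_of_linearIndependent {ι : Type} [Fintype ι] (S : Finset ℂ) (D : ℕ) (f : ι → ℂ)
    (hf : LinearIndependent ℚ f) (hm : ∀ i, f i ∈ WS S ^ D) :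
    Fintype.card ι ≤ (D + 1) ^ S.card := by
  classical
  let g : (S → Fin (D + 1)) → ℂ := fun e => ∏ c : S, (c : ℂ) ^ (e c : ℕ)
  have hsub : Mono S D ⊆ Set.range g := by
    rintro _ ⟨e, he, rfl⟩
    refine ⟨fun c => ⟨e c, Nat.lt_succ_of_le (he c)⟩, ?_⟩
    simp only [g]
    exact Finset.prod_coe_sort S (fun c => c ^ e c)
  have h1 := linearIndependent_le_span_aux' f hf (Set.range g) (by
    rintro _ ⟨i, rfl⟩
    exact Submodule.span_mono hsub (WS_pow_le S D (hm i)))
  refine h1.trans ((Fintype.card_range_le g).trans ?_)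
  simp

/-- Distinct powers of a primitive `p`-th root of unity. -/
theorem card_le_of_powers {p : ℕ} (hp : p.Prime) {ω : ℂ} (hω : IsPrimitiveRoot ω p)
    {ι : Type} [Fintype ι] (E : ι → ℕ) (hE : Function.Injective fun i => E i % p)
    (S : Finset ℂ) (D : ℕ) (hm : ∀ i, ω ^ E i ∈ WS S ^ D) :
    Fintype.card ι ≤ (D + 1) ^ S.card + 1 := by
  classical
  have hdeg : (minpoly ℚ ω).natDegree = p - 1 := by
    rw [← Polynomial.cyclotomic_eq_minpoly_rat hω hp.pos, Polynomial.natDegree_cyclotomic,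
      Nat.totient_prime hp]
  have hli := linearIndependent_pow (K := ℚ) ω
  let J := {i : ι // E i % p ≠ p - 1}
  let φ' : J → Fin (minpoly ℚ ω).natDegree := fun i => ⟨E i % p, by
    have h1 := i.2
    have h2 := Nat.mod_lt (E i) hp.pos
    omega⟩
  have hφ : Function.Injective φ' := by
    intro a b hab
    apply Subtype.ext
    apply hE
    simpa [φ'] using hab
  have h1 := card_le_of_linearIndependent S D _ (hli.comp φ' hφ) (fun i => by
    have := hm i
    rw [← Nat.mod_add_div (E i) p, pow_add, pow_mul, hω.pow_eq_one, one_pow, mul_one] at this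
    exact this)
  have h2 : Fintype.card {i : ι // E i % p = p - 1} ≤ 1 := by
    rw [Fintype.card_le_one_iff]
    intro a b
    apply Subtype.ext
    apply hE
    simp only [a.2, b.2]
  have h3 := Fintype.card_subtype_compl (fun i : ι => E i % p = p - 1)
  have h4 : Fintype.card J = Fintype.card {i : ι // ¬ E i % p = p - 1} := rfl
  have h5 := Fintype.card_subtype_le (fun i : ι => E i % p = p - 1)
  omega

end Pool.Agent.MP_d958de_lc
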