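import Pool.Agent.MP_d958de_lc.Defs
import Pool.Agent.MP_d958de_lc.Span

/-! Runs along a prescribed sequence of outcomes, and their derivatives. -/

namespace Pool.Agent.MP_d958de_lc

open Finset Topology

variable {σ Ω : Type}

def nextState (I : Instr σ Ω) (o : ℕ) (s0 : σ) : σ :=
  match I with
  | .const _ _ s => s
  | .root _ _ s => s
  | .add _ _ _ s => s
  | .sub _ _ _ s => s
  | .mul _ _ _ s => s
  | .div _ _ _ s => s
  | .conj _ _ s => s
  | .branch _ s => s o
  | .halt _ => s0

noncomputable def upd (d : ℕ) (I : Instr σ Ω) (o : ℕ) (μ : ℕ → ℂ) : ℕ → ℂ :=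
  match I with
  | .const c k _ => Function.update μ k c
  | .root _ k _ => Function.update μ k (rootOfUnity d (Equiv.intEquivNat.symm o))
  | .add i j k _ => Function.update μ k (μ i + μ j)
  | .sub i j k _ => Function.update μ k (μ i - μ j)
  | .mul i j k _ => Function.update μ k (μ i * μ j)
  | .div i j k _ => Function.update μ k (if o = 0 then 0 else μ i / μ j)
  | .conj i k _ => Function.update μ k (starRingEnd ℂ (μ i))
  | .branch _ _ => μ
  | .halt _ => μ

def ok (I : Instr σ Ω) (o : ℕ) (μ : ℕ → ℂ) : Prop :=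
  match I with
  | .div _ j _ _ => o = 0 ∨ μ j ≠ 0
  | _ => True

theorem step_eq (A : Alg σ Ω) (d : ℕ) (ω : Ω) (s : σ) (μ : ℕ → ℂ) :
    ∃ o, ok (A.prog s) o μ ∧
      A.step d ω (s, μ) = (nextState (A.prog s) o s, upd d (A.prog s) o μ) := by
  unfold Alg.step
  dsimp only
  cases A.prog s with
  | const c k s' => exact ⟨0, trivial, rfl⟩
  | root i k s' =>
      exact ⟨Equiv.intEquivNat ⌊(μ i).re⌋, trivial, by simp [nextState, upd]⟩
  | add i j k s' => exact ⟨0, trivial, rfl⟩
  | sub i j k s' => exact ⟨0, trivial, rfl⟩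
  | mul i j k s' => exact ⟨0, trivial, rfl⟩
  | div i j k s' =>
      by_cases h : μ j = 0
      · exact ⟨0, Or.inl rfl, by simp [nextState, upd, h]⟩
      · exact ⟨1, Or.inr h, by simp [nextState, upd]⟩
  | conj i k s' => exact ⟨0, trivial, rfl⟩
  | branch q s' => exact ⟨q ω μ, trivial, rfl⟩
  | halt out => exact ⟨0, trivial, rfl⟩

section Forced

variable (A : Alg σ Ω) (d : ℕ) (s0 : σ) {m : ℕ} (μ0 : (Fin m → ℝ) → ℕ → ℂ)

def fstate : List ℕ → σ
  | [] => s0
  | o :: w => nextState (A.prog (fstate w)) o (fstate w)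

noncomputable def fmem : List ℕ → (Fin m → ℝ) → ℕ → ℂ
  | [], x => μ0 x
  | o :: w, x => upd d (A.prog (fstate A s0 w)) o (fmem w x)

def dom : List ℕ → Set (Fin m → ℝ)
  | [] => Set.univ
  | o :: w => dom w ∩ {x | ok (A.prog (fstate A s0 w)) o (fmem A d s0 μ0 w x)}

theorem run_eq (ω : Ω) (x : Fin m → ℝ) :
    ∀ n : ℕ, ∃ w : List ℕ, w.length = n ∧ x ∈ dom A d s0 μ0 w ∧
    (A.step d ω)^[n] (s0, μ0 x) = (fstate A s0 w, fmem A d s0 μ0 w x)
  | 0 => ⟨[], rfl, trivial, rfl⟩
  | n + 1 => by
      obtain ⟨w, hw, hx, h⟩ := run_eq ω x n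
      obtain ⟨o, ho, h2⟩ := step_eq A d ω (fstate A s0 w) (fmem A d s0 μ0 w x)
      refine ⟨o :: w, by simp [hw], ⟨hx, ho⟩, ?_⟩
      rw [Function.iterate_succ_apply', h, h2]
      rfl

/-- The invariant: registers are differentiable at `x`, and the partial derivatives and their
conjugates are polynomials of degree at most `n` in at most `4 n` constants. -/
def Inv (f : (Fin m → ℝ) → ℕ → ℂ) (x : Fin m → ℝ) (n : ℕ) : Prop :=
  ∃ (L : ℕ → (Fin m → ℝ) →L[ℝ] ℂ) (S : Finset ℂ), S.card ≤ 4 * n ∧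
    ∀ k, HasFDerivAt (fun y => f y k) (L k) x ∧
      ∀ l : Fin m, L k (Pi.single l 1) ∈ WS S ^ n ∧
        starRingEnd ℂ (L k (Pi.single l 1)) ∈ WS S ^ n

theorem Inv.mono {f : (Fin m → ℝ) → ℕ → ℂ} {x : Fin m → ℝ} {n : ℕ} (h : Inv f x n) :
    Inv f x (n + 1) := by
  obtain ⟨L, S, hS, h⟩ := h
  exact ⟨L, S, by omega, fun k => ⟨(h k).1, fun l =>
    ⟨WS_pow_mono subset_rfl (Nat.le_succ n) ((h k).2 l).1,
     WS_pow_mono subset_rfl (Nat.le_succ n) ((h k).2 l).2⟩⟩⟩

theorem Inv.update {f : (Fin m → ℝ) → ℕ → ℂ} {x : Fin m → ℝ} {n : ℕ} (h : Inv f x n)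
    (g : (Fin m → ℝ) → ℂ) (k i j : ℕ) (α β : ℂ)
    (hg : ∀ Li Lj : (Fin m → ℝ) →L[ℝ] ℂ, HasFDerivAt (fun y => f y i) Li x →
      HasFDerivAt (fun y => f y j) Lj x → HasFDerivAt g (α • Li + β • Lj) x) :
    Inv (fun y => Function.update (f y) k (g y)) x (n + 1) := by
  classical
  obtain ⟨L, S, hS, h⟩ := h
  let S' : Finset ℂ := S ∪ {α, β, starRingEnd ℂ α, starRingEnd ℂ β}
  have hsub : S ⊆ S' := subset_union_left
  refine ⟨Function.update L k (α • L i + β • L j), S', ?_, fun k' => ?_⟩
  · have h1 := card_union_le S {α, β, starRingEnd ℂ α, starRingEnd ℂ β}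
    have h2 : ({α, β, starRingEnd ℂ α, starRingEnd ℂ β} : Finset ℂ).card ≤ 4 := card_le_four
    simp only [S']
    omega
  · by_cases hk : k' = k
    · subst hk
      simp only [Function.update_self]
      refine ⟨hg _ _ (h i).1 (h j).1, fun l => ⟨?_, ?_⟩⟩
      · simp only [add_apply, smul_apply, smul_eq_mul]
        exact add_mem
          (WS_const_mul_mem (by simp [S']) (WS_pow_mono hsub le_rfl ((h i).2 l).1))
          (WS_const_mul_mem (by simp [S']) (WS_pow_mono hsub le_rfl ((h j).2 l).1))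
      · simp only [add_apply, smul_apply, smul_eq_mul,
          map_add, map_mul]
        exact add_mem
          (WS_const_mul_mem (by simp [S']) (WS_pow_mono hsub le_rfl ((h i).2 l).2))
          (WS_const_mul_mem (by simp [S']) (WS_pow_mono hsub le_rfl ((h j).2 l).2))
    · simp only [Function.update_of_ne hk]
      exact ⟨(h k').1, fun l =>
        ⟨WS_pow_mono hsub (Nat.le_succ n) ((h k').2 l).1,
         WS_pow_mono hsub (Nat.le_succ n) ((h k').2 l).2⟩⟩

theorem Inv.update_conj {f : (Fin m → ℝ) → ℕ → ℂ} {x : Fin m → ℝ} {n : ℕ} (h : Inv f x n)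
    (k i : ℕ) :
    Inv (fun y => Function.update (f y) k (starRingEnd ℂ (f y i))) x (n + 1) := by
  classical
  apply Inv.mono
  obtain ⟨L, S, hS, h⟩ := h
  refine ⟨Function.update L k ((Complex.conjCLE : ℂ →L[ℝ] ℂ).comp (L i)), S, hS, fun k' => ?_⟩
  by_cases hk : k' = k
  · subst hk
    simp only [Function.update_self]
    refine ⟨(Complex.conjCLE : ℂ →L[ℝ] ℂ).hasFDerivAt.comp x (h i).1, fun l => ⟨?_, ?_⟩⟩
    · simpa using ((h i).2 l).2
    · simpa using ((h i).2 l).1
  · simp only [Function.update_of_ne hk]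
    exact h k'

theorem Inv.upd {f : (Fin m → ℝ) → ℕ → ℂ} {x : Fin m → ℝ} {n : ℕ} (h : Inv f x n)
    (I : Instr σ Ω) (o : ℕ) (hok : ok I o (f x)) :
    Inv (fun y => upd d I o (f y)) x (n + 1) := by
  cases I with
  | const c k s' =>
      exact h.update (fun _ => c) k 0 0 0 0 fun Li Lj _ _ =>
        (hasFDerivAt_const (𝕜 := ℝ) c x).congr_fderiv (by ext l; simp)
  | root i k s' =>
      exact h.update (fun _ => _) k 0 0 0 0 fun Li Lj _ _ =>
        (hasFDerivAt_const (𝕜 := ℝ) _ x).congr_fderiv (by ext l; simp)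
  | add i j k s' =>
      exact h.update (fun y => f y i + f y j) k i j 1 1 fun Li Lj hi hj =>
        (hi.add hj).congr_fderiv (by ext l; simp)
  | sub i j k s' =>
      exact h.update (fun y => f y i - f y j) k i j 1 (-1) fun Li Lj hi hj =>
        (hi.sub hj).congr_fderiv (by ext l; simp [sub_eq_add_neg])
  | mul i j k s' =>
      exact h.update (fun y => f y i * f y j) k i j (f x j) (f x i) fun Li Lj hi hj =>
        (hi.mul hj).congr_fderiv (by ext l; simp [add_comm])
  | div i j k s' =>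
      by_cases ho : o = 0
      · subst ho
        exact h.update (fun _ => 0) k 0 0 0 0 fun Li Lj _ _ =>
          (hasFDerivAt_const (𝕜 := ℝ) (0 : ℂ) x).congr_fderiv (by ext l; simp)
      · have hj0 : f x j ≠ 0 := hok.resolve_left ho
        have := h.update (fun y => f y i / f y j) k i j (f x j)⁻¹ (-(f x i) / (f x j) ^ 2)
          fun Li Lj hi hj => by
            have h1 : HasFDerivAt (fun y => (f y j)⁻¹) ((-((f x j) ^ 2)⁻¹) • Lj) x := by
              have := (hasDerivAt_inv hj0).hasFDerivAt.restrictScalars ℝ |>.comp x hj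
              refine this.congr_fderiv ?_
              ext l
              simp [mul_comm]
            have h2 := hi.mul h1
            simp only [div_eq_mul_inv]
            refine h2.congr_fderiv ?_
            ext l
            simp
            ring
        simpa [Pool.Agent.MP_d958de_lc.upd, ho] using this
  | conj i k s' => exact h.update_conj k i
  | branch q s' => exact h.mono
  | halt out => exact h.mono

theorem inv_fmem (h0 : ∀ x, Inv μ0 x 0) : ∀ (w : List ℕ) (x : Fin m → ℝ),
    x ∈ dom A d s0 μ0 w → Inv (fmem A d s0 μ0 w) x w.length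
  | [], x, _ => h0 x
  | o :: w, x, hx => (inv_fmem h0 w x hx.1).upd d _ o hx.2

theorem continuousOn_fmem (h0 : ∀ x, Inv μ0 x 0) (w : List ℕ) (k : ℕ) (x : Fin m → ℝ)
    (hx : x ∈ dom A d s0 μ0 w) : ContinuousAt (fun y => fmem A d s0 μ0 w y k) x := by
  obtain ⟨L, S, -, h⟩ := inv_fmem A d s0 μ0 h0 w x hx
  exact (h k).1.continuousAt

theorem isOpen_dom (h0 : ∀ x, Inv μ0 x 0) : ∀ w : List ℕ, IsOpen (dom A d s0 μ0 w)
  | [] => isOpen_univ
  | o :: w => by
      have ih := isOpen_dom h0 w
      unfold dom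
      cases A.prog (fstate A s0 w) with
      | div i j k s' =>
          by_cases ho : o = 0
          · simpa [ok, ho] using ih
          · have : ContinuousOn (fun y => fmem A d s0 μ0 w y j) (dom A d s0 μ0 w) :=
              fun x hx => (continuousOn_fmem A d s0 μ0 h0 w j x hx).continuousWithinAt
            have h2 := this.isOpen_inter_preimage ih (isOpen_compl_singleton (x := (0 : ℂ)))
            convert h2 using 2
            ext y
            simp [ok, ho]
      | _ => simpa [ok] using ih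

end Forced

end Pool.Agent.MP_d958de_lc
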